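import Pool.Agent.Run7.h632.DN2
import Pool.Agent.Run7.h632.DNum

/-!
# A universal narrow `ℵ₂`-Aronszajn tree implies that the dominating number is `ℵ₁`
-/

open Cardinal Order

universe u

namespace Pool.Agent.Results.MP_b51432_lc.DominatingNumber

open Run7.h632

theorem result (T : Type u) [PartialOrder T] (hT : IsAronszajn (ℵ_ 2) T)
    (hU : ∀ (S : Type u) [PartialOrder S], IsAronszajn (ℵ_ 2) S →
      ∃ f : S → T, ∀ x y, x < y → f x < f y) :
    dNum = ℵ₁ := by
  have h12 : (ℵ_ 2 : Cardinal.{u}) = succ (succ ℵ₀) := by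
    have h1 : (2 : Ordinal.{u}) = 1 + 1 := one_add_one_eq_two.symm
    rw [h1, ← Cardinal.succ_aleph, Cardinal.succ_aleph0]
  rw [h12] at hT hU
  refine le_antisymm ?_ aleph_one_le_dNum
  obtain ⟨ρ, hρ⟩ := hT.exists_na
  by_contra hcon
  obtain ⟨S, hS1, hS2, hS3⟩ := no_universal_dominating hρ (by
    rintro ⟨D, hD, hdom⟩
    exact hcon ((dNum_le hdom).trans hD))
  exact hS3 (hU S hS2)

end Pool.Agent.Results.MP_b51432_lc.DominatingNumber
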