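import Pool.Agent.Run7.h632.DS

/-!
# A universal narrow Aronszajn tree on `θ⁺⁺` implies `2 ^ θ > θ⁺`

For `θ = ℵ₀` this is the question Q2 of `MP_b51432_lc`: a universal narrow `ℵ₂`-Aronszajn tree
refutes the continuum hypothesis.
-/

open Cardinal Order

universe u

namespace Pool.Agent.Results.MP_b51432_lc.DoubleSuccessor

open Run7.h632

theorem result {θ : Cardinal.{u}} (hθ : ℵ₀ ≤ θ) (T : Type u) [PartialOrder T]
    (hT : IsAronszajn (succ (succ θ)) T)
    (hU : ∀ (S : Type u) [PartialOrder S], IsAronszajn (succ (succ θ)) S →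
      ∃ f : S → T, ∀ x y, x < y → f x < f y) :
    succ θ < 2 ^ θ := by
  have h1 : succ θ ≤ 2 ^ θ := Order.succ_le_of_lt (Cardinal.cantor θ)
  refine lt_of_le_of_ne h1 ?_
  intro h2
  obtain ⟨S, hS1, hS2, hS3⟩ := no_universal_double_succ hθ h2.symm T hT
  exact hS3 (hU S hS2)

end Pool.Agent.Results.MP_b51432_lc.DoubleSuccessor
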