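import Pool.Agent.Run7.h632.Diag

/-!
# A universal Aronszajn tree refutes the principle mho

For every Aronszajn tree `T` and every sequence of continuous functions `k δ : δ → ω` (`δ < ω₁`)
there is an Aronszajn tree `S` such that every strictly increasing map `S → T` yields a closed
unbounded set `C` with `k δ '' (C ∩ δ) ≠ ω` for all `δ ∈ C`.
-/

open Ordinal Cardinal Set Order

universe u

namespace Pool.Agent.Results.MP_b51432_lc.MhoDiagonal

open Run7.h632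

theorem result (T : Type u) [PartialOrder T] (hT : IsAronszajn ℵ₁ T)
    (k : Ordinal.{u} → Ordinal.{u} → ℕ)
    (hk : ∀ δ < ω₁, ∀ ξ < δ, IsSuccLimit ξ → ∃ η < ξ, ∀ ζ, η ≤ ζ → ζ ≤ ξ → k δ ζ = k δ ξ) :
    ∃ (S : Type u) (_ : PartialOrder S), IsAronszajn ℵ₁ S ∧
      ∀ f : S → T, (∀ x y, x < y → f x < f y) →
        ∃ C : Set Ordinal.{u}, IsClubIn ω₁ C ∧
          ∀ δ ∈ C, ∃ n : ℕ, ∀ γ ∈ C, γ < δ → k δ γ ≠ n := by
  obtain ⟨ρ, hρ⟩ := hT.exists_na
  have hord : (ℵ₁ : Cardinal.{u}).ord = ω₁ := Cardinal.ord_aleph 1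
  have hreg : (ℵ₁ : Cardinal.{u}).IsRegular := Cardinal.isRegular_aleph_one
  have hunc : ℵ₀ < (ℵ₁ : Cardinal.{u}) := Cardinal.aleph0_lt_aleph_one
  -- enumerations of the levels
  have he : ∀ δ : Ordinal.{u}, ∃ e : ℕ → T, δ < ω₁ →
      (∀ n, ρ (e n) = δ) ∧ ∀ u, ρ u = δ → ∃ n, e n = u := by
    intro δ
    by_cases hδ : δ < ω₁
    · have hδ' : δ < (ℵ₁ : Cardinal.{u}).ord := by rw [hord]; exact hδ
      obtain ⟨t, ht⟩ := hρ.ex δ hδ'
      have hc : {t | ρ t = δ}.Countable := by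
        rw [← Cardinal.le_aleph0_iff_set_countable, ← Cardinal.lt_aleph_one_iff]
        exact hρ.small δ hδ'
      obtain ⟨e, he⟩ := hc.exists_eq_range ⟨t, ht⟩
      refine ⟨e, fun _ => ⟨fun n => ?_, fun u hu => ?_⟩⟩
      · have : e n ∈ {t | ρ t = δ} := by rw [he]; exact ⟨n, rfl⟩
        exact this
      · have : u ∈ Set.range e := by rw [← he]; exact hu
        exact this
    · obtain ⟨t, _⟩ := hρ.ex 0 (Cardinal.isSuccLimit_ord hreg.aleph0_le).bot_lt
      exact ⟨fun _ => t, fun h => absurd h hδ⟩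
  choose e he using he
  let D : Set Ordinal.{u} := {δ | δ < ω₁ ∧ IsSuccLimit δ}
  let g : Ordinal.{u} → Set T := fun δ => {v | ρ v < δ ∧ v < e δ (k δ (ρ v))}
  have hg : LocChain ℵ₁ ρ D g := by
    refine ⟨?_, ?_, ?_, ?_⟩
    · intro δ hδ
      rw [hord]
      exact hδ.1
    · intro δ hδ
      exact hδ.2
    · intro δ hδ v hv
      exact hv.1
    · intro δ hδ ξ hξ h0
      obtain ⟨η, hη, n, hn⟩ : ∃ η < ξ, ∃ n, ∀ ζ, η ≤ ζ → ζ < ξ → k δ ζ = n := by
        by_cases hlim : IsSuccLimit ξ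
        · obtain ⟨η, hη, h⟩ := hk δ hδ.1 ξ hξ hlim
          exact ⟨η, hη, k δ ξ, fun ζ h1 h2 => h ζ h1 h2.le⟩
        · have hsucc : ∃ η < ξ, ∀ ζ < ξ, ζ ≤ η := by
            by_contra hcon
            apply hlim
            apply isSuccLimit_of h0
            intro α hα
            by_contra h1
            push Not at h1
            apply hcon
            refine ⟨α, hα, fun ζ hζ => ?_⟩
            exact Order.lt_add_one_iff.mp (hζ.trans_le h1)
          obtain ⟨η, hη, h⟩ := hsucc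
          refine ⟨η, hη, k δ η, fun ζ h1 h2 => ?_⟩
          rw [le_antisymm (h ζ h2) h1]
      have hen : ρ (e δ n) = δ := (he δ hδ.1).1 n
      obtain ⟨w, hw, hw'⟩ := hρ.pred (t := e δ n) (α := ξ) (by rw [hen]; exact hξ)
      refine ⟨η, hη, w, hw', ?_⟩
      intro v hv1 hv2
      constructor
      · rintro ⟨_, h2⟩
        rw [hn _ hv1 hv2] at h2
        exact hρ.lt_of h2.le hw.le (by rw [hw']; exact hv2)
      · intro h
        refine ⟨hv2.trans hξ, ?_⟩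
        rw [hn _ hv1 hv2]
        exact h.trans hw
  refine ⟨GT ρ D g, inferInstance, isAronszajn_GT hreg hunc hρ hg, ?_⟩
  intro f hf
  obtain ⟨C, hC, hClim, hdiag⟩ := diag hreg hunc hρ hg f hf
  rw [hord] at hC
  refine ⟨C, hC, ?_⟩
  intro δ hδ
  have hδ1 : δ < ω₁ := hC.lt δ hδ
  obtain ⟨u, hu, h⟩ := hdiag δ hδ ⟨hδ1, hClim δ hδ⟩
  obtain ⟨n, hn⟩ := (he δ hδ1).2 u hu
  refine ⟨n, ?_⟩
  intro γ hγ hγδ hkn
  obtain ⟨η, hη, hconst⟩ := hk δ hδ1 γ hγδ (hClim γ hγ)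
  apply h γ hγ hγδ η hη
  intro v hv1 hv2
  have h1 : k δ (ρ v) = n := by rw [hconst _ hv1 hv2.le, hkn]
  constructor
  · rintro ⟨_, h2⟩
    rw [h1, hn] at h2
    exact h2
  · intro h2
    refine ⟨hv2.trans hγδ, ?_⟩
    rw [h1, hn]
    exact h2

end Pool.Agent.Results.MP_b51432_lc.MhoDiagonal
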