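import Pool.Agent.Run7.h632.DS
import Pool.Agent.Run7.h632.H4b

/-!
# A universal narrow `ℵ₂`-Aronszajn tree implies `2 ^ ℵ₁ > ℵ₂`

In other words: if `2 ^ ℵ₁ = ℵ₂` (with no assumption on the continuum) then for every narrow
`ℵ₂`-Aronszajn tree `T` there is a narrow `ℵ₂`-Aronszajn tree `S` without weak embedding
into `T`.
-/

open Cardinal Order

universe u

namespace Pool.Agent.Results.MP_b51432_lc.PowAlephOne

open Run7.h632

theorem result (T : Type u) [PartialOrder T] (hT : IsAronszajn (ℵ_ 2) T)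
    (hU : ∀ (S : Type u) [PartialOrder S], IsAronszajn (ℵ_ 2) S →
      ∃ f : S → T, ∀ x y, x < y → f x < f y) :
    ℵ_ 2 < (2 : Cardinal.{u}) ^ (ℵ₁ : Cardinal.{u}) := by
  have h12 : (ℵ_ 2 : Cardinal.{u}) = succ (succ ℵ₀) := by
    have h1 : (2 : Ordinal.{u}) = 1 + 1 := one_add_one_eq_two.symm
    rw [h1, ← Cardinal.succ_aleph, Cardinal.succ_aleph0]
  rw [h12] at hT hU ⊢
  rw [← Cardinal.succ_aleph0]
  refine lt_of_le_of_ne (Order.succ_le_of_lt (Cardinal.cantor (succ ℵ₀))) ?_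
  intro h2
  have h1 : succ ℵ₀ < (2 : Cardinal.{u}) ^ (ℵ₀ : Cardinal.{u}) := by
    refine lt_of_le_of_ne (Order.succ_le_of_lt (Cardinal.cantor ℵ₀)) ?_
    intro h3
    obtain ⟨S, hS1, hS2, hS3⟩ := no_universal_double_succ le_rfl h3.symm T hT
    exact hS3 (hU S hS2)
  obtain ⟨ρ, hρ⟩ := hT.exists_na
  obtain ⟨D, g, hg, hf⟩ := no_universal_pow le_rfl hρ h2.symm h1
  obtain ⟨f, hf'⟩ := hU (GT ρ D g) (isAronszajn_GT (reg_kappa le_rfl) (unc_kappa le_rfl) hρ hg)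
  exact hf f hf'

end Pool.Agent.Results.MP_b51432_lc.PowAlephOne
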